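import Pool.Agent.H93.EN.Targets4

/-!
# Module CLB: bright corners are cool
-/

set_option autoImplicit false

namespace Pool.Agent.H4.EN

open MeasureTheory Set Metric Filter Topology Pool.Agent.H93.EN
open Pool.Agent.H93.BL hiding T_B1 T_B2 T_B3 T_SB T_SC

theorem norm_u {ι : Type} (P : Polygon ι) (i : ι) : ‖P.u i‖ = 1 := by
  unfold Polygon.u
  have h : 0 < P.len i := norm_pos_iff.2 (sub_ne_zero.2 (P.ne i).symm)
  rw [norm_div, Complex.norm_real, Real.norm_of_nonneg h.le]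
  exact div_self h.ne'

theorem norm_uv {ι : Type} (P : Polygon ι) (j : ι) (θ : ℝ) : ‖uv P j θ‖ = 1 := by
  unfold uv
  rw [norm_mul, Complex.norm_exp_ofReal_mul_I, norm_u, one_mul]

theorem wd_eq {ι : Type} [DecidableEq ι] (P : Polygon ι) (i j : ι) (l : List ι)
    (hl : ∀ k ∈ l, k = i ∨ k = j) (v : ℂ) :
    wd (P.u i) (P.u j) (l.map fun k => decide (k = i)) v = reflW P l v := by
  induction l with
  | nil => rfl
  | cons k l ih =>
    have h1 := ih fun k' hk' => hl k' (List.mem_cons_of_mem _ hk')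
    unfold wd at h1 ⊢
    unfold reflW at h1 ⊢
    rw [List.map_cons, List.foldr_cons, List.foldr_cons, h1]
    unfold rf Polygon.refl
    rcases eq_or_ne k i with h | h
    · rw [h]
      simp
    · have h2 : k = j := (hl k List.mem_cons_self).resolve_left h
      have h3 : decide (k = i) = false := decide_eq_false h
      rw [h3, h2]
      simp

theorem arg_small (η : ℝ) (hη : 0 < η) : ∃ c > (0 : ℝ), ∀ z : ℂ, ‖z - 1‖ < c → |z.arg| < η := by
  have h1 : ContinuousAt Complex.arg 1 := Complex.continuousAt_arg (by simp [Complex.mem_slitPlane_iff])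
  obtain ⟨c, hc, h2⟩ := Metric.continuousAt_iff.1 h1 η hη
  refine ⟨c, hc, fun z hz => ?_⟩
  have h3 := h2 (show dist z 1 < c by rw [dist_eq_norm]; exact hz)
  rwa [Complex.arg_one, dist_zero_right, Real.norm_eq_abs] at h3

theorem fin_min {β : Type} (T : Finset β) (Q : ℝ → β → Prop)
    (hmono : ∀ p c c', 0 < c' → c' ≤ c → Q c p → Q c' p) (h : ∀ p ∈ T, ∃ c > (0 : ℝ), Q c p) :
    ∃ c > (0 : ℝ), ∀ p ∈ T, Q c p := by
  classical
  induction T using Finset.induction_on with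
  | empty => exact ⟨1, one_pos, by simp⟩
  | insert a T ha ih =>
    obtain ⟨c, hc, h1⟩ := ih fun p hp => h p (Finset.mem_insert_of_mem hp)
    obtain ⟨c', hc', h2⟩ := h a (Finset.mem_insert_self _ _)
    refine ⟨min c c', lt_min hc hc', fun p hp => ?_⟩
    rcases Finset.mem_insert.1 hp with rfl | hp
    · exact hmono _ _ _ (lt_min hc hc') (min_le_right _ _) h2
    · exact hmono _ _ _ (lt_min hc hc') (min_le_left _ _) (h1 p hp)

/-- points near a point of the sector -/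
theorem near {ι : Type} (P : Polygon ι) (j : ι) (s φ : ℝ) (hs : 0 < s) (δ : ℝ) (y : ℂ)
    (hy : y ∈ ball (pt P j s φ) δ) : ∃ z : ℂ, ‖z - 1‖ < δ / s ∧
      y = pt P j (s * ‖z‖) (φ + z.arg) := by
  have hw : uv P j φ ≠ 0 := by
    intro h
    have := norm_uv P j φ
    rw [h, norm_zero] at this
    exact zero_ne_one this
  have hsw : (s : ℂ) * uv P j φ ≠ 0 := mul_ne_zero (by exact_mod_cast hs.ne') hw
  refine ⟨(y - P.p j) / ((s : ℂ) * uv P j φ), ?_, ?_⟩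
  · have e1 : (y - P.p j) / ((s : ℂ) * uv P j φ) - 1 = (y - pt P j s φ) / ((s : ℂ) * uv P j φ) := by
      unfold pt
      rw [div_sub_one hsw]
      congr 1
      ring
    rw [e1, norm_div, norm_mul, norm_uv, mul_one, Complex.norm_real, Real.norm_of_nonneg hs.le]
    refine div_lt_div_of_pos_right ?_ hs
    rw [mem_ball, dist_eq_norm] at hy
    exact hy
  · obtain ⟨z, hz⟩ : ∃ z : ℂ, z = (y - P.p j) / ((s : ℂ) * uv P j φ) := ⟨_, rfl⟩
    rw [← hz]
    have e1 : y = P.p j + z * ((s : ℂ) * uv P j φ) := by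
      rw [hz, div_mul_cancel₀ _ hsw]
      ring
    have e2 : ((‖z‖ : ℝ) : ℂ) * Complex.exp ((z.arg : ℂ) * Complex.I) = z := Complex.norm_mul_exp_arg_mul_I z
    unfold pt uv
    push_cast
    rw [add_mul, Complex.exp_add]
    unfold uv at e1
    rw [e1]
    conv_lhs => rw [← e2]
    ring

section

variable {ι : Type} (D : Dat ι) (i j : ι) (α : ℝ)

/-- dark directions at the corner -/
def SS : Set (ℂ × ℝ) :=
  {p | 0 < p.2 ∧ ∃ φ ∈ Ioo 0 α, (p.1 = uv D.P j φ ∨ p.1 = -uv D.P j φ) ∧ ∀ s ∈ Ioo 0 p.2,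
    ∀ ψ ∈ Ioo (φ - p.2) (φ + p.2), ∀ w : ℂ, ‖w‖ = 1 → ‖w - uv D.P j φ‖ < p.2 →
      D.F (pt D.P j s ψ) w = 0}

end

theorem dark {ι : Type} (D : Dat ι) (r : ℝ) (i j : ι) (α : ℝ) (hcor : D.Cor r i j α)
    (hCH : T_CH) (p : ℂ × ℝ) (hp : p ∈ SS D j α) : ∃ c > (0 : ℝ), ∀ s ∈ Ioo 0 c, ∀ δ : ℝ,
      0 < δ → δ ≤ c * s → ∃ φ ∈ Ioo 0 α, ∀ w, ‖w‖ = 1 → ‖w - p.1‖ < p.2 →
        Ml (D.X (pt D.P j s φ)) δ (pt D.P j s φ) w = 0 := by
  obtain ⟨hp0, φ, hφ, hp1, hF⟩ := hp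
  obtain ⟨-, -, hr, -, -, -, -, -, hsec⟩ := hcor
  obtain ⟨-, -, -, -, C, hC, hchi⟩ := hCH
  obtain ⟨c0, hc0, harg⟩ := arg_small (min p.2 (min φ (α - φ)))
    (lt_min hp0 (lt_min hφ.1 (by linarith [hφ.2])))
  have hκ := D.κpos
  refine ⟨min (min c0 (1 / 2)) (min (min (r / 2) (p.2 / 2)) D.κ), by positivity,
    fun s hs δ hδ hδs => ⟨φ, hφ, fun w hw hwp => ?_⟩⟩
  obtain ⟨c, hcd⟩ : ∃ c, c = min (min c0 (1 / 2)) (min (min (r / 2) (p.2 / 2)) D.κ) := ⟨_, rfl⟩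
  rw [← hcd] at hs hδs
  have hc1 : c ≤ c0 := by rw [hcd]; exact (min_le_left _ _).trans (min_le_left _ _)
  have hc2 : c ≤ 1 / 2 := by rw [hcd]; exact (min_le_left _ _).trans (min_le_right _ _)
  have hc3 : c ≤ r / 2 := by
    rw [hcd]; exact (min_le_right _ _).trans ((min_le_left _ _).trans (min_le_left _ _))
  have hc4 : c ≤ p.2 / 2 := by
    rw [hcd]; exact (min_le_right _ _).trans ((min_le_left _ _).trans (min_le_right _ _))
  have hc5 : c ≤ D.κ := by rw [hcd]; exact (min_le_right _ _).trans (min_le_right _ _)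
  have hs0 : 0 < s := hs.1
  have hδc : δ / s ≤ c := by rwa [div_le_iff₀ hs0]
  -- the disc
  have hy : ∀ y ∈ ball (pt D.P j s φ) δ, y ∈ D.P.Ω ∧ D.F y w = 0 := by
    intro y hy
    obtain ⟨z, hz, hyz⟩ := near D.P j s φ hs0 δ y hy
    have hz' : ‖z - 1‖ < c := hz.trans_le hδc
    have ha := harg z (hz'.trans_le hc1)
    have ha1 : |z.arg| < p.2 := ha.trans_le (min_le_left _ _)
    have ha2 : |z.arg| < φ := ha.trans_le ((min_le_right _ _).trans (min_le_left _ _))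
    have ha3 : |z.arg| < α - φ := ha.trans_le ((min_le_right _ _).trans (min_le_right _ _))
    have hn1 : ‖z‖ < 3 / 2 := by
      have := norm_add_le (z - 1) 1
      rw [sub_add_cancel, norm_one] at this
      linarith
    have hn2 : 1 / 2 < ‖z‖ := by
      have := norm_sub_norm_le (1 : ℂ) (1 - z)
      rw [norm_one, sub_sub_cancel, norm_sub_rev] at this
      linarith
    rw [abs_lt] at ha1 ha2 ha3
    have hsz0 : 0 < s * ‖z‖ := mul_pos hs0 (by linarith)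
    have hsz1 : s * ‖z‖ < 2 * c := by nlinarith [hs.2]
    rw [hyz]
    refine ⟨(hsec _ ⟨hsz0, by linarith⟩ _ ⟨by linarith, by linarith⟩).1, ?_⟩
    have hz2 : s * ‖z‖ ∈ Ioo 0 p.2 := ⟨hsz0, by linarith⟩
    have hz3 : φ + z.arg ∈ Ioo (φ - p.2) (φ + p.2) := ⟨by linarith, by linarith⟩
    rcases hp1 with h | h
    · rw [h] at hwp
      exact hF _ hz2 _ hz3 w hw hwp
    · rw [← D.Fev]
      refine hF _ hz2 _ hz3 (-w) (by rw [norm_neg]; exact hw) ?_
      rw [h, sub_neg_eq_add] at hwp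
      have e : -w - uv D.P j φ = -(w + uv D.P j φ) := by ring
      rw [e, norm_neg]
      exact hwp
  have hx : pt D.P j s φ ∈ D.P.Ω := (hy _ (mem_ball_self hδ)).1
  have hrho : infDist (pt D.P j s φ) D.B = s := (hsec s ⟨hs0, by linarith [hs.2]⟩ φ hφ).2
  unfold Ml
  rw [← integral_zero ℂ ℝ]
  refine integral_congr_ae ?_
  filter_upwards [D.own _ hx] with y hown
  by_cases hyb : y ∈ ball (pt D.P j s φ) δ
  · have h1 : y ∈ ball (pt D.P j s φ) (D.κ * infDist (pt D.P j s φ) D.B) := by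
      refine ball_subset_ball ?_ hyb
      rw [hrho]
      exact hδs.trans (mul_le_mul_of_nonneg_right hc5 hs0.le)
    have h2 : segment ℝ (pt D.P j s φ) y ⊆ D.P.Ω := fun t ht =>
      (hy t ((convex_ball _ _).segment_subset (mem_ball_self hδ) hyb ht)).1
    rw [hown h1 h2, (hy y hyb).2, mul_zero]
  · have h1 : δ ≤ ‖pt D.P j s φ - y‖ := by
      rw [mem_ball, dist_eq_norm, not_lt, norm_sub_rev] at hyb
      exact hyb
    rw [(hchi δ hδ).2.2.2.1 _ h1, zero_mul]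

theorem clb (h1 : T_CI) (h2 : T_CA) (h3 : T_U0) (h4 : T_CH) (h5 : T_B2) (h6 : T_CA0) :
    T_CLB := by
  classical
  intro ι D r i j α hcor hbr ε hε
  have hr : 0 < r := hcor.2.2.1
  have hκ := D.κpos
  obtain ⟨T, K₀, C₀, hTS, hC₀, hci⟩ := h1 (D.P.u i) (D.P.u j) (SS D j α) (norm_u _ _)
    (norm_u _ _) (fun p hp => by
      obtain ⟨hp0, φ, -, hp1, -⟩ := hp
      refine ⟨?_, hp0⟩
      rcases hp1 with h | h
      · rw [h, norm_uv]
      · rw [h, norm_neg, norm_uv]) (by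
      filter_upwards [hbr] with θ hθ
      obtain ⟨l, hl, φ, hφ, hlw, ε', hε', hF⟩ := hθ
      exact ⟨l.map fun k => decide (k = i),
        (reflW D.P l (Complex.exp ((θ : ℂ) * Complex.I)), ε'),
        ⟨hε', φ, hφ, hlw, hF⟩, wd_eq D.P i j l hl _⟩) ε hε
  obtain ⟨c, hc, hdark⟩ := fin_min T (fun c p => ∀ s ∈ Ioo 0 c, ∀ δ : ℝ,
      0 < δ → δ ≤ c * s → ∃ φ ∈ Ioo 0 α, ∀ w, ‖w‖ = 1 → ‖w - p.1‖ < p.2 →
        Ml (D.X (pt D.P j s φ)) δ (pt D.P j s φ) w = 0)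
    (fun p c c' hc' hcc h s hs δ hδ hδs => h s ⟨hs.1, hs.2.trans_le hcc⟩ δ hδ
      (hδs.trans (mul_le_mul_of_nonneg_right hcc hs.1.le)))
    (fun p hp => dark D r i j α hcor h4 p (hTS p hp))
  refine ⟨K₀ + 1, C₀, min c r, min c (D.κ / 10), hC₀, lt_min hc hr, by positivity,
    fun s hs δ hδ hδs θ hθ => ?_⟩
  have hs0 : 0 < s := hs.1
  have hsr : s ∈ Ioo 0 r := ⟨hs0, hs.2.trans_le (min_le_right _ _)⟩
  have hsc : s ∈ Ioo 0 c := ⟨hs0, hs.2.trans_le (min_le_left _ _)⟩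
  have hδc : δ ≤ c * s := hδs.trans (mul_le_mul_of_nonneg_right (min_le_left _ _) hs0.le)
  have h9 : 9 * δ < D.κ * s := by
    have := hδs.trans (mul_le_mul_of_nonneg_right (min_le_right _ _) hs0.le)
    have h10 : 0 < D.κ * s := by positivity
    nlinarith
  have harc : ∀ m : ℤ, 0 ≤ D.arc j α δ m s := fun m => (h6 ι D r i j α hcor δ hδ s hsr h9 m).1
  have hsum : ∀ k : ℤ, |k| ≤ K₀ → D.arc j α δ (k - 1) s + D.arc j α δ (k + 1) s ≤
      ∑ m ∈ Finset.Icc (-((K₀ + 1 : ℕ) : ℤ)) ((K₀ + 1 : ℕ) : ℤ), D.arc j α δ m s := by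
    intro k hk
    rw [abs_le] at hk
    have hne : k - 1 ≠ k + 1 := by omega
    rw [← Finset.sum_pair (f := fun m => D.arc j α δ m s) hne]
    refine Finset.sum_le_sum_of_subset_of_nonneg ?_ fun m _ _ => harc m
    intro m hm
    rw [Finset.mem_insert, Finset.mem_singleton] at hm
    rw [Finset.mem_Icc]
    push_cast
    rcases hm with rfl | rfl
    · constructor <;> omega
    · constructor <;> omega
  obtain ⟨CU, -, hU⟩ := h3
  have hU' := fun x => hU (D.X x) (D.Xb x) δ hδ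
  refine hci (Ml (D.X (pt D.P j s θ)) δ (pt D.P j s θ)) _
    ((hU' _).1.of_uncurry_left) (fun w => ?_) (Finset.sum_nonneg fun m _ => harc m)
    (fun k hk => ?_) (fun p hp => ?_)
  · obtain ⟨a1, a2, -⟩ := (hU' (pt D.P j s θ)).2.2.2 (pt D.P j s θ) w
    exact ⟨a1, a2⟩
  · obtain ⟨b1, b2, -⟩ := h2 ι D r i j α hcor δ hδ s hsr h9 k θ hθ
    exact ⟨b2.trans (hsum k hk), b1.trans (hsum k hk)⟩
  · obtain ⟨φ, hφ, hz⟩ := hdark p hp s hsc δ hδ hδc
    refine ⟨Ml (D.X (pt D.P j s φ)) δ (pt D.P j s φ), (hU' _).1.of_uncurry_left, fun w => ?_, hz,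
      fun k hk => ?_⟩
    · obtain ⟨a1, a2, -⟩ := (hU' (pt D.P j s φ)).2.2.2 (pt D.P j s φ) w
      exact ⟨a1, a2⟩
    · exact ((h2 ι D r i j α hcor δ hδ s hsr h9 k θ hθ).2.2 φ hφ).trans (hsum k hk)

end Pool.Agent.H4.EN
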