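import Pool.Agent.H93.EN.Targets4
import Pool.Agent.H93.BL.Basic

/-!
# Module VXS: sectors at a vertex
-/

set_option autoImplicit false

namespace Pool.Agent.H4.EN.VX

open MeasureTheory Set Metric Filter Topology Pool.Agent.H93.EN
open Pool.Agent.H93.BL hiding T_B1 T_B2 T_B3 T_SB T_SC

theorem isClosed_seg (a b : ℂ) : IsClosed (segment ℝ a b) := by
  rw [segment_eq_image']
  exact (isCompact_Icc.image (by fun_prop)).isClosed

theorem subset_of_no_frontier {S Ω : Set ℂ} (hS : IsPreconnected S) (hΩ : IsOpen Ω)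
    (hne : (S ∩ Ω).Nonempty) (hf : ∀ y ∈ S, y ∉ frontier Ω) : S ⊆ Ω := by
  refine IsPreconnected.subset_left_of_subset_union hΩ
    (isClosed_closure (s := Ω)).isOpen_compl ?_ ?_ hne hS
  · rw [Set.disjoint_left]
    intro y hy hy'
    exact hy' (subset_closure hy)
  · intro y hy
    by_cases h : y ∈ Ω
    · exact Or.inl h
    · right
      intro hc
      refine hf y hy ?_
      rw [frontier, hΩ.interior_eq]
      exact ⟨hc, h⟩

/-- unit vectors -/
noncomputable def e (t : ℝ) : ℂ := Complex.exp ((t : ℂ) * Complex.I)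

theorem e_add (s t : ℝ) : e (s + t) = e s * e t := by
  unfold e
  rw [← Complex.exp_add]
  congr 1
  push_cast
  ring

theorem e_zero : e 0 = 1 := by
  unfold e
  simp

theorem norm_e (t : ℝ) : ‖e t‖ = 1 := Complex.norm_exp_ofReal_mul_I t

theorem e_neg_mul (t : ℝ) : e (-t) * e t = 1 := by
  rw [← e_add, neg_add_cancel, e_zero]

theorem e_two_pi : e (2 * Real.pi) = 1 := by
  unfold e
  push_cast
  exact Complex.exp_two_pi_mul_I

theorem norm_mul_e_arg (z : ℂ) : (‖z‖ : ℂ) * e z.arg = z := Complex.norm_mul_exp_arg_mul_I z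

theorem exists_angle (w d : ℂ) (hw : ‖w‖ = 1) (hd : ‖d‖ = 1) (hwd : w ≠ d) :
    ∃ a ∈ Ioo 0 (2 * Real.pi), w = d * e a := by
  have hd0 : d ≠ 0 := by
    intro h
    rw [h, norm_zero] at hd
    exact zero_ne_one hd
  have h1 : e (w / d).arg = w / d := by
    have := norm_mul_e_arg (w / d)
    rw [norm_div, hw, hd] at this
    simpa using this
  have h2 : w = d * e (w / d).arg := by
    rw [h1, mul_div_cancel₀ _ hd0]
  have h3 := Complex.neg_pi_lt_arg (w / d)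
  have h4 := Complex.arg_le_pi (w / d)
  have hpi := Real.pi_pos
  rcases lt_trichotomy (w / d).arg 0 with h | h | h
  · refine ⟨(w / d).arg + 2 * Real.pi, ⟨by linarith, by linarith⟩, ?_⟩
    rw [e_add, e_two_pi, mul_one]
    exact h2
  · rw [h, e_zero, mul_one] at h2
    exact absurd h2 hwd
  · exact ⟨(w / d).arg, ⟨h, by linarith⟩, h2⟩

theorem e_eq_one (t : ℝ) (h0 : 0 < t) (h1 : t < 2 * Real.pi) : e t ≠ 1 := by
  intro h
  unfold e at h
  rw [Complex.exp_eq_one_iff] at h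
  obtain ⟨n, hn⟩ := h
  have h2 : (t : ℂ) = ((n * (2 * Real.pi) : ℝ) : ℂ) := by
    have hI := Complex.I_ne_zero
    apply mul_right_cancel₀ hI
    rw [hn]
    push_cast
    ring
  have h3 : t = n * (2 * Real.pi) := by exact_mod_cast h2
  have hpi := Real.pi_pos
  have h4 : (0 : ℝ) < n := by
    by_contra hh
    have : (n : ℝ) * (2 * Real.pi) ≤ 0 := mul_nonpos_of_nonpos_of_nonneg (not_lt.1 hh) (by positivity)
    linarith
  have h5 : (n : ℝ) < 1 := by
    by_contra hh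
    have : 1 * (2 * Real.pi) ≤ (n : ℝ) * (2 * Real.pi) :=
      mul_le_mul_of_nonneg_right (not_lt.1 hh) (by positivity)
    linarith
  have h6 : (0 : ℤ) < n := by exact_mod_cast h4
  have h7 : n < (1 : ℤ) := by exact_mod_cast h5
  omega

/-- the open sector -/
def Sec (b w : ℂ) (r θ₁ θ₂ : ℝ) : Set ℂ :=
  (fun z : ℝ × ℝ => b + (z.1 : ℂ) * (w * e z.2)) '' (Ioo 0 r ×ˢ Ioo (-θ₁) θ₂)

theorem sec_conn (b w : ℂ) (r θ₁ θ₂ : ℝ) : IsPreconnected (Sec b w r θ₁ θ₂) := by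
  refine IsPreconnected.image (isPreconnected_Ioo.prod isPreconnected_Ioo) _ ?_
  unfold e
  fun_prop

/-- directions at the point `b` -/
def Dir {ι : Type} (P : Polygon ι) (b : ℂ) : Set ℂ :=
  {d | (∃ k, P.p k = b ∧ d = P.u k) ∨ (∃ k, P.q k = b ∧ d = -P.u k)}

theorem norm_dir' {ι : Type} (P : Polygon ι) (b d : ℂ) (hd : d ∈ Dir P b) : ‖d‖ = 1 := by
  rcases hd with ⟨k, -, rfl⟩ | ⟨k, -, rfl⟩
  · exact P.norm_u k
  · rw [norm_neg]
    exact P.norm_u k

theorem p_notMem {ι : Type} (P : Polygon ι) (i : ι) : P.p i ∉ openSegment ℝ (P.p i) (P.q i) := by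
  intro h
  obtain ⟨s, h0, h1, h2⟩ := (P.mem_openSegment_iff i _).1 h
  have h3 : (s : ℂ) * P.u i = 0 := by
    have := h2.symm
    rwa [add_eq_left] at this
  rcases mul_eq_zero.1 h3 with h4 | h4
  · exact h0.ne' (by exact_mod_cast h4)
  · exact P.u_ne i h4

theorem q_notMem {ι : Type} (P : Polygon ι) (i : ι) : P.q i ∉ openSegment ℝ (P.p i) (P.q i) := by
  intro h
  obtain ⟨s, h0, h1, h2⟩ := (P.mem_openSegment_iff i _).1 h
  rw [P.q_eq i] at h2
  have h3 : ((P.len i - s : ℝ) : ℂ) * P.u i = 0 := by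
    push_cast
    linear_combination h2
  rcases mul_eq_zero.1 h3 with h4 | h4
  · have : P.len i - s = 0 := by exact_mod_cast h4
    linarith
  · exact P.u_ne i h4

theorem vtx_notMem {ι : Type} (P : Polygon ι) (b : ℂ) (hb : P.Vtx b) (i : ι) :
    b ∉ openSegment ℝ (P.p i) (P.q i) := by
  obtain ⟨k, hk⟩ := hb
  intro h
  by_cases hik : i = k
  · subst hik
    rcases hk with rfl | rfl
    · exact p_notMem P i h
    · exact q_notMem P i h
  · rcases P.meet i k hik with h1 | ⟨h1, h2⟩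
    · refine Set.disjoint_left.1 h1 h ?_
      rcases hk with rfl | rfl
      · exact left_mem_segment ℝ _ _
      · exact right_mem_segment ℝ _ _
    · rcases hk with hk | hk
      · rw [hk, h1] at h
        exact q_notMem P i h
      · rw [hk, h2] at h
        exact p_notMem P i h

theorem seg_vtx {ι : Type} (P : Polygon ι) (b : ℂ) (hb : P.Vtx b) (i : ι)
    (h : b ∈ segment ℝ (P.p i) (P.q i)) : P.p i = b ∨ P.q i = b := by
  obtain ⟨s, h0, h1, h2⟩ := (P.mem_segment_iff i _).1 h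
  rcases eq_or_lt_of_le h0 with h3 | h3
  · left
    rw [h2, ← h3]
    simp
  rcases eq_or_lt_of_le h1 with h4 | h4
  · right
    rw [h2, h4]
    exact P.q_eq i
  · exact absurd ((P.mem_openSegment_iff i _).2 ⟨s, h3, h4, h2⟩) (vtx_notMem P b hb i)

/-- a side which ends at `b` and which the table sees from the other side -/
theorem slit_q {ι : Type} (P : Polygon ι) (b d : ℂ) (r α : ℝ) (hr : 0 < r) (hα : 0 < α) (k : ι)
    (hk : P.q k = b) (hd : d = -P.u k) (hlen : r ≤ P.len k)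
    (hin : ∀ s ∈ Ioo 0 r, ∀ φ ∈ Ioo 0 α, b + (s : ℂ) * (d * e φ) ∈ P.Ω) :
    ∃ j, P.p j = b ∧ P.u j = d := by
  have hL := P.len_pos k
  have h1 : ContinuousAt Complex.arg 1 :=
    Complex.continuousAt_arg (by simp [Complex.mem_slitPlane_iff])
  obtain ⟨c, hc, h2⟩ := Metric.continuousAt_iff.1 h1 α hα
  have hx : P.q k - ((r / 2 : ℝ) : ℂ) * P.u k ∈ openSegment ℝ (P.p k) (P.q k) := by
    rw [P.mem_openSegment_iff]
    refine ⟨P.len k - r / 2, by linarith, by linarith, ?_⟩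
    rw [P.q_eq k]
    push_cast
    ring
  suffices hsuf : ∀ t ∈ Ioo 0 (min c 1 * (r / 2) / P.len k),
      P.q k - ((r / 2 : ℝ) : ℂ) * P.u k - (t : ℂ) * (Complex.I * (P.q k - P.p k)) ∈ P.Ω by
    obtain ⟨j, hj1, hj2⟩ := P.slit k _ hx ⟨min c 1 * (r / 2) / P.len k, by positivity, hsuf⟩
    exact ⟨j, by rw [hj1, hk], by rw [hd, P.u_reversed hj1 hj2]⟩
  · intro t ht
    have ht1 : t * P.len k / (r / 2) < min c 1 := by
      have h3 := (lt_div_iff₀ hL).1 ht.2
      rw [div_lt_iff₀ (by positivity)]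
      exact h3
    have ht0 : 0 < t * P.len k / (r / 2) := by
      have := ht.1
      positivity
    obtain ⟨τ, hτ⟩ : ∃ τ : ℝ, τ = t * P.len k / (r / 2) := ⟨_, rfl⟩
    rw [← hτ] at ht1 ht0
    obtain ⟨z, hz⟩ : ∃ z : ℂ, z = 1 + (τ : ℂ) * Complex.I := ⟨_, rfl⟩
    have hzi : z.im = τ := by rw [hz]; simp
    have hz1 : ‖z - 1‖ = τ := by
      rw [hz, add_sub_cancel_left, norm_mul, Complex.norm_I, mul_one, Complex.norm_real,
        Real.norm_of_nonneg ht0.le]
    have harg : |z.arg| < α := by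
      have h3 := h2 (show dist z 1 < c by
        rw [dist_eq_norm, hz1]; exact ht1.trans_le (min_le_left _ _))
      rwa [Complex.arg_one, dist_zero_right, Real.norm_eq_abs] at h3
    have harg0 : 0 < z.arg := by
      rcases (Complex.arg_nonneg_iff.2 (by rw [hzi]; exact ht0.le) : 0 ≤ z.arg).lt_or_eq with h | h
      · exact h
      · have := (Complex.arg_eq_zero_iff.1 h.symm).2
        rw [hzi] at this
        exact absurd this ht0.ne'
    have hzn : ‖z‖ < 2 := by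
      have : ‖z‖ ≤ ‖z - 1‖ + ‖(1 : ℂ)‖ := by
        have := norm_add_le (z - 1) 1
        rwa [sub_add_cancel] at this
      rw [hz1, norm_one] at this
      have h5 : τ < 1 := ht1.trans_le (min_le_right _ _)
      linarith
    have hz0 : z ≠ 0 := by
      intro h
      rw [h] at hzi
      exact ht0.ne' (by simpa using hzi.symm)
    have h6 := hin (r / 2 * ‖z‖) ⟨mul_pos (by positivity) (norm_pos_iff.2 hz0), by nlinarith⟩
      z.arg ⟨harg0, (abs_lt.1 harg).2⟩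
    have h7 := norm_mul_e_arg z
    have h8 : P.q k - ((r / 2 : ℝ) : ℂ) * P.u k - (t : ℂ) * (Complex.I * (P.q k - P.p k)) =
        b + ((r / 2 * ‖z‖ : ℝ) : ℂ) * (d * e z.arg) := by
      have h9 : t * P.len k = τ * (r / 2) := by
        rw [hτ]
        field_simp
      have h10 : (t : ℂ) * (P.len k : ℂ) = (τ : ℂ) * ((r / 2 : ℝ) : ℂ) := by exact_mod_cast h9
      rw [P.q_sub k, hk]
      push_cast at h10 ⊢
      rw [hd]
      have h11 : (r : ℂ) / 2 * (‖z‖ : ℂ) * (-P.u k * e z.arg) = -((r : ℂ) / 2 * P.u k * z) := by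
        conv_rhs => rw [← h7]
        ring
      rw [h11, hz]
      linear_combination (-(Complex.I * P.u k)) * h10
    rw [h8]
    exact h6

theorem slit_p {ι : Type} (P : Polygon ι) (b d : ℂ) (r α : ℝ) (hr : 0 < r) (hα : 0 < α) (k : ι)
    (hk : P.p k = b) (hd : d = P.u k) (hlen : r ≤ P.len k)
    (hin : ∀ s ∈ Ioo 0 r, ∀ φ ∈ Ioo 0 α, b + (s : ℂ) * (d * e (-φ)) ∈ P.Ω) :
    ∃ j, P.q j = b ∧ -P.u j = d := by
  have hL := P.len_pos k
  have h1 : ContinuousAt Complex.arg 1 :=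
    Complex.continuousAt_arg (by simp [Complex.mem_slitPlane_iff])
  obtain ⟨c, hc, h2⟩ := Metric.continuousAt_iff.1 h1 α hα
  have hx : P.p k + ((r / 2 : ℝ) : ℂ) * P.u k ∈ openSegment ℝ (P.p k) (P.q k) := by
    rw [P.mem_openSegment_iff]
    exact ⟨r / 2, by linarith, by linarith, rfl⟩
  suffices hsuf : ∀ t ∈ Ioo 0 (min c 1 * (r / 2) / P.len k),
      P.p k + ((r / 2 : ℝ) : ℂ) * P.u k - (t : ℂ) * (Complex.I * (P.q k - P.p k)) ∈ P.Ω by
    obtain ⟨j, hj1, hj2⟩ := P.slit k _ hx ⟨min c 1 * (r / 2) / P.len k, by positivity, hsuf⟩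
    exact ⟨j, by rw [hj2, hk], by rw [hd, P.u_reversed hj1 hj2, neg_neg]⟩
  · intro t ht
    have ht1 : t * P.len k / (r / 2) < min c 1 := by
      have h3 := (lt_div_iff₀ hL).1 ht.2
      rw [div_lt_iff₀ (by positivity)]
      exact h3
    have ht0 : 0 < t * P.len k / (r / 2) := by
      have := ht.1
      positivity
    obtain ⟨τ, hτ⟩ : ∃ τ : ℝ, τ = t * P.len k / (r / 2) := ⟨_, rfl⟩
    rw [← hτ] at ht1 ht0
    obtain ⟨z, hz⟩ : ∃ z : ℂ, z = 1 + ((-τ : ℝ) : ℂ) * Complex.I := ⟨_, rfl⟩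
    have hzi : z.im = -τ := by rw [hz]; simp
    have hz1 : ‖z - 1‖ = τ := by
      rw [hz, add_sub_cancel_left, norm_mul, Complex.norm_I, mul_one, Complex.norm_real,
        norm_neg, Real.norm_of_nonneg ht0.le]
    have harg : |z.arg| < α := by
      have h3 := h2 (show dist z 1 < c by
        rw [dist_eq_norm, hz1]; exact ht1.trans_le (min_le_left _ _))
      rwa [Complex.arg_one, dist_zero_right, Real.norm_eq_abs] at h3
    have harg0 : z.arg < 0 := Complex.arg_neg_iff.2 (by rw [hzi]; linarith)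
    have hzn : ‖z‖ < 2 := by
      have : ‖z‖ ≤ ‖z - 1‖ + ‖(1 : ℂ)‖ := by
        have := norm_add_le (z - 1) 1
        rwa [sub_add_cancel] at this
      rw [hz1, norm_one] at this
      have h5 : τ < 1 := ht1.trans_le (min_le_right _ _)
      linarith
    have hz0 : z ≠ 0 := by
      intro h
      rw [h] at hzi
      have : (0 : ℝ) = -τ := by simpa using hzi
      linarith
    have h6 := hin (r / 2 * ‖z‖) ⟨mul_pos (by positivity) (norm_pos_iff.2 hz0), by nlinarith⟩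
      (-z.arg) ⟨by linarith, by linarith [(abs_lt.1 harg).1]⟩
    rw [neg_neg] at h6
    have h7 := norm_mul_e_arg z
    have h8 : P.p k + ((r / 2 : ℝ) : ℂ) * P.u k - (t : ℂ) * (Complex.I * (P.q k - P.p k)) =
        b + ((r / 2 * ‖z‖ : ℝ) : ℂ) * (d * e z.arg) := by
      have h9 : t * P.len k = τ * (r / 2) := by
        rw [hτ]
        field_simp
      have h10 : (t : ℂ) * (P.len k : ℂ) = (τ : ℂ) * ((r / 2 : ℝ) : ℂ) := by exact_mod_cast h9
      rw [P.q_sub k, hk]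
      push_cast at h10 ⊢
      rw [hd]
      have h11 : (r : ℂ) / 2 * (‖z‖ : ℂ) * (P.u k * e z.arg) = (r : ℂ) / 2 * P.u k * z := by
        conv_rhs => rw [← h7]
        ring
      rw [h11, hz]
      push_cast
      linear_combination (-(Complex.I * P.u k)) * h10
    rw [h8]
    exact h6

end Pool.Agent.H4.EN.VX

namespace Pool.Agent.H4.EN

open MeasureTheory Set Metric Filter Topology Pool.Agent.H93.EN
open Pool.Agent.H93.BL hiding T_B1 T_B2 T_B3 T_SB T_SC
open VX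

theorem vxs : T_VXS := by
  intro ι _ P b hb
  classical
  obtain ⟨k0, hk0⟩ := hb
  have hb : P.Vtx b := ⟨k0, hk0⟩
  -- the radius
  set F : Set ℂ := ⋃ i ∈ {i : ι | b ∉ segment ℝ (P.p i) (P.q i)}, segment ℝ (P.p i) (P.q i)
    with hF
  have hFc : IsClosed F := by
    rw [hF]
    exact Set.Finite.isClosed_biUnion (Set.toFinite _) (fun i _ => VX.isClosed_seg _ _)
  have hxF : b ∈ Fᶜ := by
    intro h
    rw [hF, mem_iUnion₂] at h
    obtain ⟨i, hi, hi'⟩ := h
    exact hi hi'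
  obtain ⟨ρ1, hρ1, hball⟩ := Metric.isOpen_iff.1 hFc.isOpen_compl b hxF
  have : Nonempty ι := ⟨k0⟩
  obtain ⟨k1, hk1⟩ := Finite.exists_min P.len
  refine ⟨min ρ1 (P.len k1), lt_min hρ1 (P.len_pos k1), fun r hr x hx hxr => ?_⟩
  have hr0 : 0 < r := hr.1
  have hr1 : r ≤ ρ1 := hr.2.trans (min_le_left _ _)
  have hr2 : ∀ k, r ≤ P.len k := fun k => (hr.2.trans (min_le_right _ _)).trans (hk1 k)
  have hsegfr : ∀ i, segment ℝ (P.p i) (P.q i) ⊆ frontier P.Ω := by
    intro i y hy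
    rw [P.frontier_eq, mem_iUnion]
    exact ⟨i, hy⟩
  have hnfr : ∀ y ∈ P.Ω, y ∉ frontier P.Ω := by
    intro y hy hy'
    rw [frontier, P.isOpen.interior_eq] at hy'
    exact hy'.2 hy
  have hfr : ∀ y, dist y b < r → y ∈ frontier P.Ω → ∃ d ∈ Dir P b, ∃ s : ℝ, 0 ≤ s ∧
      y = b + (s : ℂ) * d := by
    intro y hy hyf
    rw [P.frontier_eq, mem_iUnion] at hyf
    obtain ⟨i, hi⟩ := hyf
    have hxi : b ∈ segment ℝ (P.p i) (P.q i) := by
      by_contra hxi
      have : y ∈ F := by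
        rw [hF, mem_iUnion₂]
        exact ⟨i, hxi, hi⟩
      exact hball (Metric.mem_ball.2 (hy.trans_le hr1)) this
    obtain ⟨s, hs0, hs1, hs⟩ := (P.mem_segment_iff i y).1 hi
    rcases seg_vtx P b hb i hxi with h | h
    · exact ⟨P.u i, Or.inl ⟨i, h, rfl⟩, s, hs0, by rw [hs, h]⟩
    · refine ⟨-P.u i, Or.inr ⟨i, h, rfl⟩, P.len i - s, by linarith, ?_⟩
      rw [hs, ← h, P.q_eq i]
      push_cast
      ring
  have hbfr : b ∈ frontier P.Ω := by
    rcases hk0 with h | h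
    · rw [h]
      exact hsegfr k0 (left_mem_segment ℝ _ _)
    · rw [h]
      exact hsegfr k0 (right_mem_segment ℝ _ _)
  have hxb : x ≠ b := by
    rintro rfl
    exact hnfr x hx hbfr
  have hs0 : 0 < dist x b := dist_pos.2 hxb
  obtain ⟨s0, hs0e⟩ : ∃ s0, s0 = dist x b := ⟨_, rfl⟩
  rw [← hs0e] at hs0 hxr
  have hs0c : (s0 : ℂ) ≠ 0 := by exact_mod_cast hs0.ne'
  obtain ⟨w, hw⟩ : ∃ w, w = (x - b) / (s0 : ℂ) := ⟨_, rfl⟩
  have hxw : x = b + (s0 : ℂ) * w := by
    rw [hw, mul_div_cancel₀ _ hs0c]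
    ring
  have hwn : ‖w‖ = 1 := by
    rw [hw, norm_div, Complex.norm_real, Real.norm_of_nonneg hs0.le, ← dist_eq_norm, ← hs0e]
    exact div_self hs0.ne'
  have hwD : w ∉ Dir P b := by
    intro h
    refine hnfr x hx ?_
    rcases h with ⟨k, hk, hk'⟩ | ⟨k, hk, hk'⟩
    · refine hsegfr k ((P.mem_segment_iff k x).2 ⟨s0, hs0.le, hxr.le.trans (hr2 k), ?_⟩)
      rw [hk, ← hk']
      exact hxw
    · refine hsegfr k ((P.mem_segment_iff k x).2 ⟨P.len k - s0, ?_, by linarith, ?_⟩)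
      · have := hr2 k
        linarith
      · have h9 := P.q_eq k
        rw [hk] at h9
        rw [hxw, hk', h9]
        push_cast
        ring
  -- the angles
  have hang : ∀ d ∈ Dir P b, ∃ a ∈ Ioo 0 (2 * Real.pi), w = d * e a := fun d hd =>
    exists_angle w d hwn (norm_dir' P b d hd) fun h => hwD (h ▸ hd)
  choose! a ha1 ha2 using hang
  have hDfin : (Dir P b).Finite := by
    refine ((Set.finite_range P.u).union (Set.finite_range fun k => -P.u k)).subset ?_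
    rintro d (⟨k, -, rfl⟩ | ⟨k, -, rfl⟩)
    · exact Or.inl ⟨k, rfl⟩
    · exact Or.inr ⟨k, rfl⟩
  have hDne : (Dir P b).Nonempty := by
    rcases hk0 with h | h
    · exact ⟨_, Or.inl ⟨k0, h.symm, rfl⟩⟩
    · exact ⟨_, Or.inr ⟨k0, h.symm, rfl⟩⟩
  obtain ⟨d1, hd1, hmin⟩ := Set.exists_min_image _ a hDfin hDne
  obtain ⟨d2, hd2, hmax⟩ := Set.exists_max_image _ a hDfin hDne
  obtain ⟨θ₁, hθ₁⟩ : ∃ t, t = a d1 := ⟨_, rfl⟩
  obtain ⟨θ₂, hθ₂⟩ : ∃ t, t = 2 * Real.pi - a d2 := ⟨_, rfl⟩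
  have hθ₁0 : 0 < θ₁ := by rw [hθ₁]; exact (ha1 d1 hd1).1
  have hθ₂0 : 0 < θ₂ := by rw [hθ₂]; linarith [(ha1 d2 hd2).2]
  have hsum : θ₁ + θ₂ ≤ 2 * Real.pi := by
    have := hmin d2 hd2
    linarith
  have hwd1 : w = d1 * e θ₁ := by rw [hθ₁]; exact ha2 d1 hd1
  have hd1w : d1 = w * e (-θ₁) := by
    rw [hwd1, mul_assoc, mul_comm (e θ₁), e_neg_mul, mul_one]
  have hd2w : d2 = w * e θ₂ := by
    rw [ha2 d2 hd2, mul_assoc, ← e_add, hθ₂, add_sub_cancel, e_two_pi, mul_one]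
  -- the sector
  have hsec : Sec b w r θ₁ θ₂ ⊆ P.Ω := by
    refine VX.subset_of_no_frontier (sec_conn _ _ _ _ _) P.isOpen ⟨x, ?_, hx⟩ ?_
    · refine ⟨(s0, 0), ⟨⟨hs0, hxr⟩, ⟨by simpa using hθ₁0, hθ₂0⟩⟩, ?_⟩
      simp only [e_zero, mul_one]
      exact hxw.symm
    · rintro y ⟨⟨t, ψ⟩, ⟨ht, hψ⟩, rfl⟩ hyf
      simp only at ht hψ hyf
      have hn1 : ‖(t : ℂ) * (w * e ψ)‖ = t := by
        rw [norm_mul, norm_mul, hwn, norm_e, mul_one, mul_one, Complex.norm_real,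
          Real.norm_of_nonneg ht.1.le]
      obtain ⟨d, hd, s, hs, hsd⟩ := hfr _ (by
        rw [dist_eq_norm, add_sub_cancel_left, hn1]
        exact ht.2) hyf
      have h1 : (t : ℂ) * (w * e ψ) = (s : ℂ) * d := add_left_cancel hsd
      have h2 : t = s := by
        have h3 := congrArg norm h1
        rw [hn1, norm_mul, norm_dir' P b d hd, mul_one, Complex.norm_real,
          Real.norm_of_nonneg hs] at h3
        exact h3
      rw [← h2] at h1
      have htc : (t : ℂ) ≠ 0 := by exact_mod_cast ht.1.ne'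
      have h3 : w * e ψ = d := mul_left_cancel₀ htc h1
      have h4 := ha2 d hd
      have hd0 : d ≠ 0 := by
        intro h
        have := norm_dir' P b d hd
        rw [h, norm_zero] at this
        exact zero_ne_one this
      have h5 : e (a d + ψ) = 1 := by
        rw [h4, mul_assoc, ← e_add] at h3
        exact mul_left_cancel₀ hd0 (h3.trans (mul_one d).symm)
      have h6 := hmin d hd
      have h7 := hmax d hd
      have h8 := hψ.1
      have h9 := hψ.2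
      exact e_eq_one _ (by linarith) (by linarith) h5
  have hin : ∀ t ∈ Ioo 0 r, ∀ ψ ∈ Ioo (-θ₁) θ₂, b + (t : ℂ) * (w * e ψ) ∈ P.Ω :=
    fun t ht ψ hψ => hsec ⟨(t, ψ), ⟨ht, hψ⟩, rfl⟩
  obtain ⟨j, hj1, hj2⟩ : ∃ j, P.p j = b ∧ P.u j = d1 := by
    rcases hd1 with ⟨k, hk, hk'⟩ | ⟨k, hk, hk'⟩
    · exact ⟨k, hk, hk'.symm⟩
    · refine slit_q P b d1 r (θ₁ + θ₂) hr0 (by linarith) k hk hk' (hr2 k) fun s hs φ hφ => ?_
      have h1 := hin s hs (-θ₁ + φ) ⟨by linarith [hφ.1], by linarith [hφ.2]⟩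
      rw [hd1w, mul_assoc, ← e_add]
      exact h1
  obtain ⟨i, hi1, hi2⟩ : ∃ i, P.q i = b ∧ -P.u i = d2 := by
    rcases hd2 with ⟨k, hk, hk'⟩ | ⟨k, hk, hk'⟩
    · refine slit_p P b d2 r (θ₁ + θ₂) hr0 (by linarith) k hk hk' (hr2 k) fun s hs φ hφ => ?_
      have h1 := hin s hs (θ₂ + -φ) ⟨by linarith [hφ.2], by linarith [hφ.1]⟩
      rw [hd2w, mul_assoc, ← e_add]
      exact h1
    · exact ⟨k, hk, hk'.symm⟩
  have hpt : ∀ s θ : ℝ, pt P j s θ = b + (s : ℂ) * (w * e (-θ₁ + θ)) := by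
    intro s θ
    unfold pt uv
    rw [hj1, hj2, hd1w, e_add]
    unfold e
    ring
  refine ⟨i, j, θ₁ + θ₂, by rw [hi1, hj1], hj1, by linarith, hsum, ?_, hr2 i, hr2 j, ?_, θ₁,
    ⟨hθ₁0, by linarith⟩, ?_⟩
  · rw [hi2, hd2w]
    unfold uv
    rw [hj2, hd1w, add_comm θ₁ θ₂]
    have h1 : Complex.exp (((θ₂ + θ₁ : ℝ) : ℂ) * Complex.I) = e θ₂ * e θ₁ := e_add θ₂ θ₁
    rw [h1]
    have h2 := e_neg_mul θ₁
    linear_combination (-(w * e θ₂)) * h2
  · intro s hs θ hθ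
    rw [hpt]
    exact hin s hs _ ⟨by linarith [hθ.1], by linarith [hθ.2]⟩
  · rw [← hs0e, hpt, neg_add_cancel, e_zero, mul_one]
    exact hxw

end Pool.Agent.H4.EN
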